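import Pool.Agent.H75.GC.Tau

/-!
# MP_f0f0c5 (H75/GC): the averaging lemma of the translation trick

If `F s ≤ η ∏_j g (s_j) F (s + v)` for all `s` of a set `B` of the positive orthant and all
translations `v` with coordinates in `[1, 2]`, and if the integral of `g` over intervals of length
one is bounded by `H`, then the integral of `F` over `B` is at most `η H ^ |ι|` times the integral
of `F` over the orthant.
-/

set_option autoImplicit false

namespace Pool.Agent.H32.GC

open MeasureTheory Filter Pool.Agent.H75.GC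

open scoped ENNReal

/-- the function `2 ^ K (2 + x ^ (-1/2))` -/
noncomputable def sing (K : ℕ) (x : ℝ) : ℝ := 2 ^ K * (2 + x ^ (-(1 / 2) : ℝ))

lemma measurable_sing (K : ℕ) : Measurable (sing K) := by
  unfold sing
  exact ((measurable_id.pow_const _).const_add _).const_mul _

lemma sing_nonneg (K : ℕ) {x : ℝ} (hx : 0 < x) : 0 ≤ sing K x := by
  unfold sing
  have := Real.rpow_pos_of_pos hx (-(1 / 2) : ℝ)
  positivity

/-- an integrable majorant -/
noncomputable def majo (u x : ℝ) : ℝ :=
  (Set.Icc (u - 2) (u - 1)).indicator (fun _ => (3 : ℝ)) x +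
    (Set.Ioc (0 : ℝ) 1).indicator (fun x => x ^ (-(1 / 2) : ℝ)) x

lemma integrable_rpow_half :
    IntegrableOn (fun x : ℝ => x ^ (-(1 / 2) : ℝ)) (Set.Ioc 0 1) := by
  have h := intervalIntegral.intervalIntegrable_rpow' (a := 0) (b := 1) (r := (-(1 / 2) : ℝ))
    (by norm_num)
  rwa [intervalIntegrable_iff_integrableOn_Ioc_of_le zero_le_one] at h

lemma integral_rpow_half : ∫ x in Set.Ioc (0 : ℝ) 1, x ^ (-(1 / 2) : ℝ) = 2 := by
  rw [← intervalIntegral.integral_of_le zero_le_one, integral_rpow (Or.inl (by norm_num))]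
  norm_num

lemma integrable_majo (u : ℝ) : Integrable (majo u) := by
  unfold majo
  refine Integrable.add ?_ ?_
  · rw [integrable_indicator_iff measurableSet_Icc]
    exact integrableOn_const (by simp)
  · rw [integrable_indicator_iff measurableSet_Ioc]
    exact integrable_rpow_half

lemma integral_majo (u : ℝ) : ∫ x, majo u x = 5 := by
  unfold majo
  rw [integral_add]
  · rw [integral_indicator measurableSet_Icc, integral_indicator measurableSet_Ioc,
      integral_rpow_half]
    simp
    norm_num
  · rw [integrable_indicator_iff measurableSet_Icc]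
    exact integrableOn_const (by simp)
  · rw [integrable_indicator_iff measurableSet_Ioc]
    exact integrable_rpow_half

/-- the part of `g` on `(0, ∞) ∩ [u - 2, u - 1]` -/
noncomputable def cut (g : ℝ → ℝ) (u x : ℝ) : ℝ :=
  (Set.Ioi 0 ∩ Set.Icc (u - 2) (u - 1)).indicator g x

lemma cut_nonneg {g : ℝ → ℝ} (hg0 : ∀ x, 0 < x → 0 ≤ g x) (u x : ℝ) : 0 ≤ cut g u x :=
  Set.indicator_nonneg (fun x hx => hg0 x hx.1) x

lemma cut_sing_le (K : ℕ) (u x : ℝ) : cut (sing K) u x ≤ 2 ^ K * majo u x := by
  unfold cut majo
  have h0 : 0 ≤ (Set.Icc (u - 2) (u - 1)).indicator (fun _ => (3 : ℝ)) x :=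
    Set.indicator_nonneg (fun _ _ => by norm_num) x
  have h1 : 0 ≤ (Set.Ioc (0 : ℝ) 1).indicator (fun x => x ^ (-(1 / 2) : ℝ)) x :=
    Set.indicator_nonneg (fun x hx => (Real.rpow_pos_of_pos hx.1 _).le) x
  have h2 : (0 : ℝ) < 2 ^ K := by positivity
  by_cases hx : x ∈ Set.Ioi 0 ∩ Set.Icc (u - 2) (u - 1)
  · rw [Set.indicator_of_mem hx, Set.indicator_of_mem hx.2]
    unfold sing
    refine mul_le_mul_of_nonneg_left ?_ h2.le
    by_cases h : x ≤ 1
    · rw [Set.indicator_of_mem (show x ∈ Set.Ioc (0 : ℝ) 1 from ⟨hx.1, h⟩)]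
      linarith
    · have h3 : x ^ (-(1 / 2) : ℝ) ≤ 1 :=
        Real.rpow_le_one_of_one_le_of_nonpos (not_le.1 h).le (by norm_num)
      linarith
  · rw [Set.indicator_of_notMem hx]
    positivity

lemma integrable_cut (K : ℕ) (u : ℝ) : Integrable (cut (sing K) u) := by
  refine ((integrable_majo u).const_mul (2 ^ K)).mono' ?_ ?_
  · exact ((measurable_sing K).indicator
      (measurableSet_Ioi.inter measurableSet_Icc)).aestronglyMeasurable
  · filter_upwards with x
    rw [Real.norm_of_nonneg (cut_nonneg (fun x hx => sing_nonneg K hx) u x)]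
    exact cut_sing_le K u x

lemma integral_cut_le (K : ℕ) (u : ℝ) : ∫ x, cut (sing K) u x ≤ 2 ^ K * 5 := by
  calc ∫ x, cut (sing K) u x ≤ ∫ x, 2 ^ K * majo u x :=
        integral_mono (integrable_cut K u) ((integrable_majo u).const_mul _) (cut_sing_le K u)
    _ = 2 ^ K * 5 := by rw [integral_const_mul, integral_majo]

section

variable {ι : Type*} [Fintype ι]

/-- the cube `[1, 2] ^ ι` -/
def cube (ι : Type*) : Set (ι → ℝ) := Set.pi Set.univ fun _ => Set.Icc 1 2

lemma measurableSet_cube : MeasurableSet (cube ι) :=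
  MeasurableSet.univ_pi fun _ => measurableSet_Icc

lemma measurableSet_pos : MeasurableSet (pos ι) :=
  MeasurableSet.univ_pi fun _ => measurableSet_Ioi

lemma volume_cube : volume (cube ι) = 1 := by
  unfold cube
  rw [volume_pi_pi]
  simp
  norm_num

/-- the inner integral -/
lemma inner_le {g : ℝ → ℝ} (hg0 : ∀ x, 0 < x → 0 ≤ g x) {H : ℝ}
    (hint : ∀ u, Integrable (cut g u)) (hH : ∀ u, ∫ x, cut g u x ≤ H) (u : ι → ℝ) :
    ∫⁻ s : ι → ℝ, ENNReal.ofReal (∏ j, cut g (u j) (s j)) ≤
      ENNReal.ofReal (H ^ Fintype.card ι) := by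
  have hI : Integrable fun s : ι → ℝ => ∏ j, cut g (u j) (s j) :=
    Integrable.fintype_prod_dep (f := fun j => cut g (u j)) fun j => hint (u j)
  rw [← ofReal_integral_eq_lintegral_ofReal hI
    (Eventually.of_forall fun s => Finset.prod_nonneg fun j _ => cut_nonneg hg0 _ _)]
  refine ENNReal.ofReal_le_ofReal ?_
  rw [integral_fintype_prod_volume_eq_prod (fun j => cut g (u j))]
  calc ∏ j, ∫ x, cut g (u j) x ≤ ∏ _j : ι, H :=
        Finset.prod_le_prod (fun j _ => integral_nonneg fun x => cut_nonneg hg0 _ _)
          fun j _ => hH _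
    _ = H ^ Fintype.card ι := by rw [Finset.prod_const, Finset.card_univ]

theorem averaging (F : (ι → ℝ) → ℝ) (hFm : Measurable F) (hF0 : ∀ s ∈ pos ι, 0 ≤ F s)
    (hFi : IntegrableOn F (pos ι)) (B : Set (ι → ℝ)) (hB : MeasurableSet B) (hBs : B ⊆ pos ι)
    (g : ℝ → ℝ) (hg : Measurable g) (hg0 : ∀ x, 0 < x → 0 ≤ g x) (H : ℝ)
    (hint : ∀ u, Integrable (cut g u)) (hH : ∀ u, ∫ x, cut g u x ≤ H) (η : ℝ) (hη : 0 ≤ η)
    (key : ∀ s ∈ B, ∀ v : ι → ℝ, (∀ j, v j ∈ Set.Icc (1 : ℝ) 2) →
      F s ≤ η * (∏ j, g (s j)) * F (s + v)) :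
    ∫ s in B, F s ≤ η * H ^ Fintype.card ι * ∫ s in pos ι, F s := by
  have hH0 : 0 ≤ H := (integral_nonneg fun x => cut_nonneg hg0 0 x).trans (hH 0)
  -- the functions in `ENNReal`
  let f : (ι → ℝ) → ℝ≥0∞ := fun s => ENNReal.ofReal ((pos ι).indicator F s)
  have hf : Measurable f := (hFm.indicator measurableSet_pos).ennreal_ofReal
  let G : (ι → ℝ) → ℝ≥0∞ := fun s => (pos ι).indicator (fun s => ENNReal.ofReal (∏ j, g (s j))) s
  have hG : Measurable G := by
    refine Measurable.indicator ?_ measurableSet_pos
    exact (Finset.measurable_fun_prod _ fun j _ => hg.comp (measurable_pi_apply j)).ennreal_ofReal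
  let k : (ι → ℝ) → ℝ≥0∞ := (cube ι).indicator fun _ => 1
  have hk : Measurable k := measurable_const.indicator measurableSet_cube
  have hfpos : ∀ s ∈ pos ι, f s = ENNReal.ofReal (F s) := fun s hs => by
    show ENNReal.ofReal ((pos ι).indicator F s) = _
    rw [Set.indicator_of_mem hs]
  -- step A
  have hA : ∫⁻ s in B, f s ≤ ∫⁻ s, ∫⁻ u, ENNReal.ofReal η * G s * (k (u - s) * f u) := by
    rw [← lintegral_indicator hB]
    refine lintegral_mono fun s => ?_
    by_cases hs : s ∈ B
    · rw [Set.indicator_of_mem hs]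
      have hsp := hBs hs
      have h1 : ∫⁻ u, ENNReal.ofReal η * G s * (k (u - s) * f u) =
          ∫⁻ v, ENNReal.ofReal η * G s * (k v * f (s + v)) := by
        rw [← lintegral_add_left_eq_self _ s]
        refine lintegral_congr fun v => ?_
        rw [add_sub_cancel_left]
      rw [h1]
      have h2 : f s = ∫⁻ v, k v * f s := by
        rw [lintegral_mul_const _ hk, lintegral_indicator measurableSet_cube, setLIntegral_const,
          volume_cube, one_mul, one_mul]
      rw [h2]
      refine lintegral_mono fun v => ?_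
      by_cases hv : v ∈ cube ι
      · have hkv : k v = 1 := Set.indicator_of_mem hv _
        have hv' : ∀ j, v j ∈ Set.Icc (1 : ℝ) 2 := fun j => hv j (Set.mem_univ j)
        have hsv : s + v ∈ pos ι := fun j _ => by
          have := hsp j (Set.mem_univ j)
          have h3 := (hv' j).1
          simp only [Set.mem_Ioi, Pi.add_apply] at this ⊢
          linarith
        have hGs : G s = ENNReal.ofReal (∏ j, g (s j)) := Set.indicator_of_mem hsp _
        rw [hkv, one_mul, one_mul, hfpos s hsp, hfpos _ hsv, hGs, ← ENNReal.ofReal_mul hη,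
          ← ENNReal.ofReal_mul]
        · exact ENNReal.ofReal_le_ofReal (key s hs v hv')
        · exact mul_nonneg hη (Finset.prod_nonneg fun j _ => hg0 _ (hsp j (Set.mem_univ j)))
      · have hkv : k v = 0 := Set.indicator_of_notMem hv _
        rw [hkv, zero_mul]
        exact zero_le
    · rw [Set.indicator_of_notMem hs]
      exact zero_le
  -- step B
  have hmeas : Measurable (Function.uncurry fun s u : ι → ℝ =>
      ENNReal.ofReal η * G s * (k (u - s) * f u)) := by
    refine ((hG.comp measurable_fst).const_mul _).mul ?_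
    exact (hk.comp (measurable_snd.sub measurable_fst)).mul (hf.comp measurable_snd)
  rw [lintegral_lintegral_swap hmeas.aemeasurable] at hA
  -- step C
  have hC : ∀ u, ∫⁻ s, ENNReal.ofReal η * G s * (k (u - s) * f u) ≤
      ENNReal.ofReal (η * H ^ Fintype.card ι) * f u := by
    intro u
    have h1 : ∀ s : ι → ℝ, ENNReal.ofReal η * G s * (k (u - s) * f u) =
        ENNReal.ofReal η * f u * ENNReal.ofReal (∏ j, cut g (u j) (s j)) := by
      intro s
      have h2 : G s * k (u - s) = ENNReal.ofReal (∏ j, cut g (u j) (s j)) := by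
        by_cases hsp : s ∈ pos ι
        · by_cases hv : u - s ∈ cube ι
          · have hkv : k (u - s) = 1 := Set.indicator_of_mem hv _
            have hGs : G s = ENNReal.ofReal (∏ j, g (s j)) := Set.indicator_of_mem hsp _
            rw [hkv, hGs, mul_one]
            congr 1
            refine Finset.prod_congr rfl fun j _ => ?_
            unfold cut
            rw [Set.indicator_of_mem]
            have h3 := hv j (Set.mem_univ j)
            simp only [Pi.sub_apply, Set.mem_Icc] at h3
            exact ⟨hsp j (Set.mem_univ j), by linarith [h3.2], by linarith [h3.1]⟩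
          · have hkv : k (u - s) = 0 := Set.indicator_of_notMem hv _
            rw [hkv, mul_zero]
            symm
            rw [ENNReal.ofReal_eq_zero]
            obtain ⟨j, hj⟩ : ∃ j, (u - s) j ∉ Set.Icc (1 : ℝ) 2 := by
              by_contra hcon
              push Not at hcon
              exact hv fun j _ => hcon j
            refine (Finset.prod_eq_zero (Finset.mem_univ j) ?_).le
            unfold cut
            rw [Set.indicator_of_notMem]
            rintro ⟨_, h4, h5⟩
            refine hj ?_
            simp only [Pi.sub_apply, Set.mem_Icc]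
            exact ⟨by linarith, by linarith⟩
        · have hGs : G s = 0 := Set.indicator_of_notMem hsp _
          rw [hGs, zero_mul]
          symm
          rw [ENNReal.ofReal_eq_zero]
          obtain ⟨j, hj⟩ : ∃ j, s j ∉ Set.Ioi (0 : ℝ) := by
            by_contra hcon
            push Not at hcon
            exact hsp fun j _ => hcon j
          refine (Finset.prod_eq_zero (Finset.mem_univ j) ?_).le
          unfold cut
          rw [Set.indicator_of_notMem]
          rintro ⟨h4, _⟩
          exact hj h4
      rw [← h2]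
      ring
    rw [lintegral_congr h1, lintegral_const_mul'']
    · calc ENNReal.ofReal η * f u * ∫⁻ s : ι → ℝ, ENNReal.ofReal (∏ j, cut g (u j) (s j))
          ≤ ENNReal.ofReal η * f u * ENNReal.ofReal (H ^ Fintype.card ι) :=
            mul_le_mul_right (inner_le hg0 hint hH u) _
        _ = ENNReal.ofReal (η * H ^ Fintype.card ι) * f u := by
            rw [ENNReal.ofReal_mul hη]
            ring
    · refine (Measurable.ennreal_ofReal ?_).aemeasurable
      refine Finset.measurable_fun_prod _ fun j _ => ?_
      exact (hg.indicator (measurableSet_Ioi.inter measurableSet_Icc)).comp (measurable_pi_apply j)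
  have hD : ∫⁻ s in B, f s ≤ ENNReal.ofReal (η * H ^ Fintype.card ι) * ∫⁻ u, f u := by
    refine hA.trans ((lintegral_mono hC).trans_eq ?_)
    rw [lintegral_const_mul _ hf]
  -- back to the reals
  have hr1 : ∫⁻ s in B, f s = ENNReal.ofReal (∫ s in B, F s) := by
    rw [ofReal_integral_eq_lintegral_ofReal (hFi.mono_set hBs)
      ((ae_restrict_iff' hB).2 (Eventually.of_forall fun s hs => hF0 s (hBs hs)))]
    refine setLIntegral_congr_fun hB fun s hs => hfpos s (hBs hs)
  have hr2 : ∫⁻ s, f s = ENNReal.ofReal (∫ s in pos ι, F s) := by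
    rw [ofReal_integral_eq_lintegral_ofReal hFi
      ((ae_restrict_iff' measurableSet_pos).2 (Eventually.of_forall fun s hs => hF0 s hs)),
      ← lintegral_indicator measurableSet_pos]
    refine lintegral_congr fun s => ?_
    by_cases hs : s ∈ pos ι
    · rw [hfpos s hs, Set.indicator_of_mem hs]
    · show ENNReal.ofReal ((pos ι).indicator F s) = _
      rw [Set.indicator_of_notMem hs, Set.indicator_of_notMem hs, ENNReal.ofReal_zero]
  rw [hr1, hr2, ← ENNReal.ofReal_mul (by positivity)] at hD
  exact (ENNReal.ofReal_le_ofReal_iff (mul_nonneg (by positivity)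
    (setIntegral_nonneg measurableSet_pos hF0))).1 hD

end

end Pool.Agent.H32.GC
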