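import Pool.Agent.H32.GC.Avg
import Pool.Agent.H67.GC.Int
import Pool.Agent.H67.GC.Pt

/-!
# MP_f0f0c5 (H75/GC): BAD, the translation trick

The part of the orthant where some `τ_k` is bounded has negligible mass.
-/

set_option autoImplicit false

namespace Pool.Agent.H75.GC

open MeasureTheory Filter Pool.Agent.H67.GC Pool.Agent.H32.GC

variable {ι κ : Type*} [Fintype ι] [Fintype κ]

/-- BAD (Step 3, translation trick): the region where some `τ_k` is bounded has negligible mass. -/
theorem bad_small (a : ι → κ → ℕ) (r : κ → ℕ) (hr : ∀ k, ∑ j, a j k < r k) {b : ℝ} (hb : 0 < b)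
    (hbK : b * Fintype.card κ ≤ 1 / 2) (δ T : κ → ℝ) (hδ : ∀ k, 0 ≤ δ k) (hT : ∀ k, 0 < T k)
    (R : ℝ) {e : ℝ} (he : 0 < e) :
    ∀ᶠ t : ℝ in atTop, ∫ s in pos ι ∩ {s | ∃ k, tau a r t k s ≤ R}, W a r b δ T t s
      ≤ e * ∫ s in pos ι, W a r b δ T t s := by
  have hH : (0 : ℝ) < (2 ^ Fintype.card κ * 5) ^ Fintype.card ι := by positivity
  filter_upwards [W_shift' a r hr hb hbK δ T hδ hT R
    (e / (2 ^ Fintype.card κ * 5) ^ Fintype.card ι) (by positivity),
    eventually_gt_atTop 0] with t ht ht0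
  have hB : MeasurableSet (pos ι ∩ {s | ∃ k, tau a r t k s ≤ R}) := by
    refine measurableSet_pos.inter ?_
    have : {s : ι → ℝ | ∃ k, tau a r t k s ≤ R} = ⋃ k, {s | tau a r t k s ≤ R} := by
      ext s
      simp
    rw [this]
    exact MeasurableSet.iUnion fun k => measurableSet_le (measurable_tau a r t k) measurable_const
  have hW0 : ∀ s ∈ pos ι, 0 ≤ W a r b δ T t s := by
    intro s hs
    unfold W maj
    refine mul_nonneg (Real.exp_pos _).le (Finset.prod_nonneg fun k _ => ?_)
    have h1 := tau_pos' a r ht0 k hs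
    have h2 := Real.rpow_pos_of_pos h1 (-b)
    have h3 := Real.rpow_pos_of_pos (show 0 < 1 + tau a r t k s by linarith) (-(δ k))
    have h4 := Real.exp_pos (T k * tau a r t k s)
    positivity
  have h := averaging (W a r b δ T t) (measurable_W a r b δ T t) hW0
    (W_integrable a r hr hb hbK δ T hδ hT ht0) _ hB Set.inter_subset_left
    (sing (Fintype.card κ)) (measurable_sing _) (fun x hx => sing_nonneg _ hx)
    (2 ^ Fintype.card κ * 5) (integrable_cut _) (integral_cut_le _)
    (e / (2 ^ Fintype.card κ * 5) ^ Fintype.card ι) (by positivity)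
    (fun s hs v hv => by
      have := ht s hs.1 v hv hs.2
      unfold sing
      exact this)
  rwa [div_mul_cancel₀ _ hH.ne'] at h

end Pool.Agent.H75.GC
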