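import Pool.Agent.H32.GC.Bad

/-!
# MP_f0f0c5 (H75/GC): the limit of the Laplace integral
-/

set_option autoImplicit false

namespace Pool.Agent.H75.GC

open MeasureTheory Filter Pool.Agent.H67.GC Pool.Agent.H32.GC Topology

variable {ι κ : Type*} [Fintype ι] [Fintype κ]

/-- the product of the majorants -/
noncomputable def majP (b : ℝ) (δ T : κ → ℝ) (x : κ → ℝ) : ℝ := ∏ k, maj b (δ k) (T k) (x k)

lemma maj_pos {b δ T x : ℝ} (hx : 0 < x) : 0 < maj b δ T x := by
  unfold maj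
  have h2 := Real.rpow_pos_of_pos hx (-b)
  have h3 := Real.rpow_pos_of_pos (show 0 < 1 + x by linarith) (-δ)
  have h4 := Real.exp_pos (T * x)
  positivity

lemma majP_pos {b : ℝ} {δ T x : κ → ℝ} (hx : ∀ k, 0 < x k) : 0 < majP b δ T x :=
  Finset.prod_pos fun k _ => maj_pos (hx k)

lemma W_eq (a : ι → κ → ℕ) (r : κ → ℕ) (b : ℝ) (δ T : κ → ℝ) (t : ℝ) (s : ι → ℝ) :
    W a r b δ T t s = Real.exp (-∑ j, s j) * majP b δ T (fun k => tau a r t k s) := rfl

lemma W_pos (a : ι → κ → ℕ) (r : κ → ℕ) (b : ℝ) (δ T : κ → ℝ) {t : ℝ} (ht : 0 < t) {s : ι → ℝ}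
    (hs : s ∈ pos ι) : 0 < W a r b δ T t s := by
  rw [W_eq]
  exact mul_pos (Real.exp_pos _) (majP_pos fun k => tau_pos' a r ht k hs)

omit [Fintype κ] in
lemma continuousOn_tau (a : ι → κ → ℕ) (r : κ → ℕ) (t : ℝ) (k : κ) :
    ContinuousOn (tau a r t k) (pos ι) := by
  unfold tau
  refine continuousOn_const.mul (continuousOn_finsetProd _ fun j _ => ?_)
  refine ContinuousOn.rpow_const (continuous_apply j).continuousOn fun s hs => Or.inl ?_
  exact (show (0 : ℝ) < s j from hs j (Set.mem_univ j)).ne'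

theorem integral_W_pos (a : ι → κ → ℕ) (r : κ → ℕ) (hr : ∀ k, ∑ j, a j k < r k) {b : ℝ}
    (hb : 0 < b) (hbK : b * Fintype.card κ ≤ 1 / 2) (δ T : κ → ℝ) (hδ : ∀ k, 0 ≤ δ k)
    (hT : ∀ k, 0 < T k) {t : ℝ} (ht : 0 < t) : 0 < ∫ s in pos ι, W a r b δ T t s := by
  rw [setIntegral_pos_iff_support_of_nonneg_ae
    ((ae_restrict_iff' measurableSet_pos).2
      (Eventually.of_forall fun s hs => (W_pos a r b δ T ht hs).le))
    (W_integrable a r hr hb hbK δ T hδ hT ht)]
  have h1 : cube ι ⊆ Function.support (W a r b δ T t) ∩ pos ι := by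
    intro s hs
    have hsp : s ∈ pos ι := fun j _ => by
      have := (hs j (Set.mem_univ j)).1
      show (0 : ℝ) < s j
      linarith
    exact ⟨(W_pos a r b δ T ht hsp).ne', hsp⟩
  calc (0 : ENNReal) < 1 := one_pos
    _ = volume (cube ι) := volume_cube.symm
    _ ≤ _ := measure_mono h1

section

variable {E : Type*} [NormedAddCommGroup E] [NormedSpace ℝ E]

/-- the integrand of the Laplace integral -/
noncomputable def lapl (a : ι → κ → ℕ) (r : κ → ℕ) (f : (κ → ℝ) → E) (t : ℝ) (s : ι → ℝ) : E :=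
  Real.exp (-∑ j, s j) • f (fun k => tau a r t k s)

lemma lapl_meas (a : ι → κ → ℕ) (r : κ → ℕ) {f : (κ → ℝ) → E} (hf : ContinuousOn f (pos κ))
    {t : ℝ} (ht : 0 < t) :
    AEStronglyMeasurable (lapl a r f t) (volume.restrict (pos ι)) := by
  refine ContinuousOn.aestronglyMeasurable ?_ measurableSet_pos
  unfold lapl
  refine ContinuousOn.smul ?_ ?_
  · exact (Real.continuous_exp.comp
      (continuous_finsetSum _ fun j _ => continuous_apply j).neg).continuousOn
  · refine ContinuousOn.comp (t := pos κ) hf ?_ ?_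
    · exact continuousOn_pi.2 fun k => continuousOn_tau a r t k
    · intro s hs k _
      exact tau_pos' a r ht k hs

lemma lapl_norm_le (a : ι → κ → ℕ) (r : κ → ℕ) (b : ℝ) (δ T : κ → ℝ) {f : (κ → ℝ) → E} {M : ℝ}
    (hM : ∀ x ∈ pos κ, ‖f x‖ ≤ M * majP b δ T x) {t : ℝ} (ht : 0 < t) {s : ι → ℝ}
    (hs : s ∈ pos ι) : ‖lapl a r f t s‖ ≤ M * W a r b δ T t s := by
  unfold lapl
  rw [norm_smul, Real.norm_of_nonneg (Real.exp_pos _).le, W_eq]
  calc Real.exp (-∑ j, s j) * ‖f fun k => tau a r t k s‖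
      ≤ Real.exp (-∑ j, s j) * (M * majP b δ T fun k => tau a r t k s) :=
        mul_le_mul_of_nonneg_left (hM _ fun k _ => tau_pos' a r ht k hs) (Real.exp_pos _).le
    _ = _ := by ring

/-- The Laplace integrand is integrable. -/
theorem lapl_integrable (a : ι → κ → ℕ) (r : κ → ℕ) (hr : ∀ k, ∑ j, a j k < r k) {b : ℝ}
    (hb : 0 < b) (hbK : b * Fintype.card κ ≤ 1 / 2) (δ T : κ → ℝ) (hδ : ∀ k, 0 ≤ δ k)
    (hT : ∀ k, 0 < T k) {f : (κ → ℝ) → E} (hf : ContinuousOn f (pos κ)) {M : ℝ}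
    (hM : ∀ x ∈ pos κ, ‖f x‖ ≤ M * majP b δ T x) {t : ℝ} (ht : 0 < t) :
    IntegrableOn (lapl a r f t) (pos ι) := by
  refine ((W_integrable a r hr hb hbK δ T hδ hT ht).const_mul M).mono' (lapl_meas a r hf ht) ?_
  rw [ae_restrict_iff' measurableSet_pos]
  exact Eventually.of_forall fun s hs => lapl_norm_le a r b δ T hM ht hs

/-- STEP 4 (analytic part): if `f` is at most `M ∏ maj` and `f / ∏ maj → G` as all variables tend
to infinity, then `∫ e^(-∑ s) f(τ(s)) ds / ∫ W → G`. -/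
theorem laplace_limit [CompleteSpace E] (a : ι → κ → ℕ) (r : κ → ℕ) (hr : ∀ k, ∑ j, a j k < r k) {b : ℝ}
    (hb : 0 < b) (hbK : b * Fintype.card κ ≤ 1 / 2) (δ T : κ → ℝ) (hδ : ∀ k, 0 ≤ δ k)
    (hT : ∀ k, 0 < T k) {f : (κ → ℝ) → E} (hf : ContinuousOn f (pos κ)) {M : ℝ}
    (hM : ∀ x ∈ pos κ, ‖f x‖ ≤ M * majP b δ T x) (G : E)
    (hG : ∀ ε : ℝ, 0 < ε → ∃ R : ℝ, ∀ x ∈ pos κ, (∀ k, R < x k) →
      ‖f x - majP b δ T x • G‖ ≤ ε * majP b δ T x) :
    Tendsto (fun t : ℝ => (∫ s in pos ι, W a r b δ T t s)⁻¹ • ∫ s in pos ι, lapl a r f t s)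
      atTop (𝓝 G) := by
  rw [Metric.tendsto_nhds]
  intro ε hε
  -- constants
  have hM' : 0 ≤ |M| + ‖G‖ := by positivity
  obtain ⟨R, hR⟩ := hG (ε / 4) (by linarith)
  filter_upwards [bad_small a r hr hb hbK δ T hδ hT R
    (e := ε / (4 * (|M| + ‖G‖ + 1))) (by positivity), eventually_gt_atTop 0] with t hbad ht
  set B : Set (ι → ℝ) := pos ι ∩ {s | ∃ k, tau a r t k s ≤ R} with hBdef
  have hB : MeasurableSet B := by
    refine measurableSet_pos.inter ?_
    have : {s : ι → ℝ | ∃ k, tau a r t k s ≤ R} = ⋃ k, {s | tau a r t k s ≤ R} := by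
      ext s
      simp
    rw [this]
    exact MeasurableSet.iUnion fun k => measurableSet_le (measurable_tau a r t k) measurable_const
  have hWi := W_integrable a r hr hb hbK δ T hδ hT ht
  have hWp := integral_W_pos a r hr hb hbK δ T hδ hT ht
  set I : ℝ := ∫ s in pos ι, W a r b δ T t s with hI
  have hLi := lapl_integrable a r hr hb hbK δ T hδ hT hf hM ht
  have hBi : IntegrableOn (B.indicator (W a r b δ T t)) (pos ι) := hWi.indicator hB
  -- the pointwise bound
  have hpt : ∀ s ∈ pos ι, ‖lapl a r f t s - W a r b δ T t s • G‖ ≤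
      ε / 4 * W a r b δ T t s + (|M| + ‖G‖) * B.indicator (W a r b δ T t) s := by
    intro s hs
    have hW0 := W_pos a r b δ T ht hs
    by_cases hsB : s ∈ B
    · rw [Set.indicator_of_mem hsB]
      have h1 := lapl_norm_le a r b δ T hM ht hs
      have h2 : ‖W a r b δ T t s • G‖ = W a r b δ T t s * ‖G‖ := by
        rw [norm_smul, Real.norm_of_nonneg hW0.le]
      calc ‖lapl a r f t s - W a r b δ T t s • G‖
          ≤ ‖lapl a r f t s‖ + ‖W a r b δ T t s • G‖ := norm_sub_le _ _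
        _ ≤ |M| * W a r b δ T t s + W a r b δ T t s * ‖G‖ := by
            rw [h2]
            have : M * W a r b δ T t s ≤ |M| * W a r b δ T t s :=
              mul_le_mul_of_nonneg_right (le_abs_self M) hW0.le
            linarith
        _ ≤ _ := by
            have : 0 ≤ ε / 4 * W a r b δ T t s := by positivity
            linarith
    · rw [Set.indicator_of_notMem hsB, mul_zero, add_zero]
      have h1 : ∀ k, R < tau a r t k s := by
        intro k
        by_contra hcon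
        exact hsB ⟨hs, k, not_lt.1 hcon⟩
      have h2 := hR (fun k => tau a r t k s) (fun k _ => tau_pos' a r ht k hs) h1
      have h3 : lapl a r f t s - W a r b δ T t s • G = Real.exp (-∑ j, s j) •
          (f (fun k => tau a r t k s) - majP b δ T (fun k => tau a r t k s) • G) := by
        unfold lapl
        rw [smul_sub, smul_smul, ← W_eq]
      rw [h3, norm_smul, Real.norm_of_nonneg (Real.exp_pos _).le]
      calc Real.exp (-∑ j, s j) *
            ‖f (fun k => tau a r t k s) - majP b δ T (fun k => tau a r t k s) • G‖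
          ≤ Real.exp (-∑ j, s j) * (ε / 4 * majP b δ T (fun k => tau a r t k s)) :=
            mul_le_mul_of_nonneg_left h2 (Real.exp_pos _).le
        _ = ε / 4 * W a r b δ T t s := by
            rw [W_eq]
            ring
  -- integrate
  have hint : ‖(∫ s in pos ι, lapl a r f t s) - I • G‖ ≤
      ε / 4 * I + (|M| + ‖G‖) * ∫ s in B, W a r b δ T t s := by
    have e1 : (∫ s in pos ι, lapl a r f t s) - I • G =
        ∫ s in pos ι, (lapl a r f t s - W a r b δ T t s • G) := by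
      rw [integral_sub hLi (hWi.smul_const G), integral_smul_const]
    have e2 : ∫ s in pos ι, (ε / 4 * W a r b δ T t s +
        (|M| + ‖G‖) * B.indicator (W a r b δ T t) s) =
        ε / 4 * I + (|M| + ‖G‖) * ∫ s in B, W a r b δ T t s := by
      rw [integral_add (hWi.const_mul _) (hBi.const_mul _), integral_const_mul,
        integral_const_mul, setIntegral_indicator hB,
        Set.inter_eq_self_of_subset_right (Set.inter_subset_left : B ⊆ pos ι)]
    rw [e1, ← e2]
    refine norm_integral_le_of_norm_le ((hWi.const_mul _).add (hBi.const_mul _)) ?_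
    rw [ae_restrict_iff' measurableSet_pos]
    exact Eventually.of_forall hpt
  have hfin : ‖(∫ s in pos ι, lapl a r f t s) - I • G‖ ≤ ε / 2 * I := by
    refine hint.trans ?_
    have h1 : (|M| + ‖G‖) * ∫ s in B, W a r b δ T t s ≤
        (|M| + ‖G‖) * (ε / (4 * (|M| + ‖G‖ + 1)) * I) := mul_le_mul_of_nonneg_left hbad hM'
    have h2 : (|M| + ‖G‖) * (ε / (4 * (|M| + ‖G‖ + 1)) * I) ≤ ε / 4 * I := by
      have h3 : (|M| + ‖G‖) * (ε / (4 * (|M| + ‖G‖ + 1))) ≤ ε / 4 := by
        rw [mul_div_assoc', div_le_div_iff₀ (by positivity) (by norm_num)]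
        nlinarith
      calc (|M| + ‖G‖) * (ε / (4 * (|M| + ‖G‖ + 1)) * I)
          = (|M| + ‖G‖) * (ε / (4 * (|M| + ‖G‖ + 1))) * I := by ring
        _ ≤ ε / 4 * I := mul_le_mul_of_nonneg_right h3 hWp.le
    linarith
  rw [dist_eq_norm]
  have e3 : I⁻¹ • (∫ s in pos ι, lapl a r f t s) - G =
      I⁻¹ • ((∫ s in pos ι, lapl a r f t s) - I • G) := by
    rw [smul_sub, smul_smul, inv_mul_cancel₀ hWp.ne', one_smul]
  rw [e3, norm_smul, norm_inv, Real.norm_of_nonneg hWp.le]
  calc I⁻¹ * ‖(∫ s in pos ι, lapl a r f t s) - I • G‖ ≤ I⁻¹ * (ε / 2 * I) :=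
        mul_le_mul_of_nonneg_left hfin (inv_pos.2 hWp).le
    _ = ε / 2 := by field_simp
    _ < ε := by linarith

end

end Pool.Agent.H75.GC
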