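import Pool.Agent.H32.GC.Lim

/-!
# MP_f0f0c5 (H75/GC): products of functions with a given comparison function
-/

set_option autoImplicit false

namespace Pool.Agent.H75.GC

open MeasureTheory Filter Pool.Agent.H67.GC Pool.Agent.H32.GC Topology

lemma maj_continuousOn (b δ T : ℝ) : ContinuousOn (maj b δ T) (Set.Ioi 0) := by
  unfold maj
  refine ContinuousOn.mul (ContinuousOn.mul ?_ ?_) (by fun_prop)
  · exact continuousOn_const.add (ContinuousOn.rpow_const continuousOn_id fun x hx =>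
      Or.inl (ne_of_gt hx))
  · refine ContinuousOn.rpow_const (by fun_prop) fun x hx => Or.inl ?_
    have : (0 : ℝ) < x := hx
    positivity

/-- `maj` is asymptotic to `x ^ (-δ) e ^ (T x)`. -/
lemma maj_asymp {b δ T : ℝ} (hb : 0 < b) :
    Tendsto (fun x : ℝ => x ^ δ * Real.exp (-(T * x)) * maj b δ T x) atTop (𝓝 1) := by
  have h1 : Tendsto (fun x : ℝ => 1 + x ^ (-b)) atTop (𝓝 (1 + 0)) :=
    (tendsto_rpow_neg_atTop hb).const_add 1
  have h2 : Tendsto (fun x : ℝ => ((1 + x) / x) ^ (-δ)) atTop (𝓝 ((1 : ℝ) ^ (-δ))) := by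
    have h3 : Tendsto (fun x : ℝ => (1 + x) / x) atTop (𝓝 1) := by
      have h4 : Tendsto (fun x : ℝ => x⁻¹ + 1) atTop (𝓝 (0 + 1)) :=
        tendsto_inv_atTop_zero.add_const 1
      rw [zero_add] at h4
      refine h4.congr' ?_
      filter_upwards [eventually_gt_atTop 0] with x hx
      field_simp
    exact h3.rpow_const (Or.inl one_ne_zero)
  have h5 := h1.mul h2
  rw [add_zero, one_mul, Real.one_rpow] at h5
  refine h5.congr' ?_
  filter_upwards [eventually_gt_atTop 0] with x hx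
  unfold maj
  rw [Real.div_rpow (by linarith) hx.le, Real.rpow_neg hx.le δ, div_inv_eq_mul]
  have h6 : Real.exp (-(T * x)) * Real.exp (T * x) = 1 := by
    rw [← Real.exp_add]
    simp
  calc (1 + x ^ (-b)) * ((1 + x) ^ (-δ) * x ^ δ)
      = x ^ δ * (Real.exp (-(T * x)) * Real.exp (T * x)) * ((1 + x ^ (-b)) * (1 + x) ^ (-δ)) := by
        rw [h6]; ring
    _ = _ := by ring

section

variable {A : Type*} [NormedAddCommGroup A] [NormedSpace ℝ A]

/-- from the asymptotic formula to the comparison with `maj` -/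
theorem tendsto_maj {b δ T : ℝ} (hb : 0 < b) {g : ℝ → A} {G : A}
    (hg : Tendsto (fun x : ℝ => (x ^ δ * Real.exp (-(T * x))) • g x) atTop (𝓝 G)) :
    Tendsto (fun x : ℝ => (maj b δ T x)⁻¹ • g x) atTop (𝓝 G) := by
  have h1 := ((maj_asymp (b := b) (δ := δ) (T := T) hb).inv₀ one_ne_zero).smul hg
  rw [inv_one, one_smul] at h1
  refine h1.congr' ?_
  filter_upwards [eventually_gt_atTop 0] with x hx
  rw [smul_smul]
  congr 1
  have h2 : 0 < x ^ δ := Real.rpow_pos_of_pos hx _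
  have h3 := Real.exp_pos (-(T * x))
  have h4 := maj_pos (b := b) (δ := δ) (T := T) hx
  field_simp

/-- the uniform bound -/
theorem maj_bound {b δ T : ℝ} (hδ : 0 ≤ δ) (hT : 0 < T) {g : ℝ → A} {G : A}
    (hc : ContinuousOn g (Set.Ioi 0)) {C : ℝ} (h0 : ∀ x : ℝ, 0 < x → x ≤ 1 → ‖g x‖ ≤ C * x ^ (-b))
    (hlim : Tendsto (fun x : ℝ => (maj b δ T x)⁻¹ • g x) atTop (𝓝 G)) :
    ∃ M : ℝ, 0 ≤ M ∧ ∀ x : ℝ, 0 < x → ‖g x‖ ≤ M * maj b δ T x := by
  have hC : 0 ≤ C := by
    have := h0 1 one_pos le_rfl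
    rw [Real.one_rpow, mul_one] at this
    exact (norm_nonneg _).trans this
  have h1 : ∀ᶠ x : ℝ in atTop, ‖(maj b δ T x)⁻¹ • g x‖ ≤ ‖G‖ + 1 :=
    (hlim.norm.eventually_lt_const (lt_add_one _)).mono fun x hx => hx.le
  obtain ⟨R, hR⟩ := eventually_atTop.1 h1
  -- the middle part
  have hcont : ContinuousOn (fun x => ‖(maj b δ T x)⁻¹ • g x‖) (Set.Icc 1 (max 1 R)) := by
    have hsub : Set.Icc 1 (max 1 R) ⊆ Set.Ioi (0 : ℝ) := fun x hx => by
      have := hx.1
      show (0 : ℝ) < x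
      linarith
    refine ContinuousOn.norm (ContinuousOn.smul ?_ (hc.mono hsub))
    exact ((maj_continuousOn b δ T).mono hsub).inv₀ fun x hx => (maj_pos (hsub hx)).ne'
  obtain ⟨D, hD⟩ := (isCompact_Icc.bddAbove_image hcont)
  refine ⟨C * 2 ^ δ + |D| + (‖G‖ + 1), by positivity, fun x hx => ?_⟩
  have hm := maj_pos (b := b) (δ := δ) (T := T) hx
  have hconv : ∀ c : ℝ, ‖(maj b δ T x)⁻¹ • g x‖ ≤ c → ‖g x‖ ≤ c * maj b δ T x := by
    intro c h
    rw [norm_smul, norm_inv, Real.norm_of_nonneg hm.le, inv_mul_le_iff₀ hm] at h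
    linarith [mul_comm c (maj b δ T x)]
  have h20 : (0 : ℝ) < 2 ^ δ := by positivity
  rcases le_or_gt x 1 with hx1 | hx1
  · have h2 : x ^ (-b) ≤ 2 ^ δ * maj b δ T x := by
      unfold maj
      have h3 := Real.rpow_pos_of_pos hx (-b)
      have h4 : 1 ≤ Real.exp (T * x) := Real.one_le_exp (by positivity)
      have h5 : 1 ≤ 2 ^ δ * (1 + x) ^ (-δ) := by
        rw [Real.rpow_neg (by linarith), ← div_eq_mul_inv, one_le_div (by positivity)]
        exact Real.rpow_le_rpow (by linarith) (by linarith) hδ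
      have h6 : 1 ≤ 2 ^ δ * (1 + x) ^ (-δ) * Real.exp (T * x) := by nlinarith
      calc x ^ (-b) ≤ (1 + x ^ (-b)) * 1 := by linarith
        _ ≤ (1 + x ^ (-b)) * (2 ^ δ * (1 + x) ^ (-δ) * Real.exp (T * x)) :=
            mul_le_mul_of_nonneg_left h6 (by linarith)
        _ = _ := by ring
    calc ‖g x‖ ≤ C * x ^ (-b) := h0 x hx hx1
      _ ≤ C * (2 ^ δ * maj b δ T x) := mul_le_mul_of_nonneg_left h2 hC
      _ ≤ _ := by
          have h7 : 0 ≤ |D| * maj b δ T x := by positivity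
          have h8 : 0 ≤ (‖G‖ + 1) * maj b δ T x := by positivity
          nlinarith
  · rcases le_or_gt R x with hRx | hRx
    · refine (hconv _ (hR x hRx)).trans (mul_le_mul_of_nonneg_right ?_ hm.le)
      have : 0 ≤ C * 2 ^ δ := by positivity
      linarith [abs_nonneg D]
    · refine (hconv |D| ?_).trans (mul_le_mul_of_nonneg_right ?_ hm.le)
      · refine le_trans (hD ⟨x, ⟨hx1.le, hRx.le.trans (le_max_right _ _)⟩, rfl⟩) (le_abs_self D)
      · have : 0 ≤ C * 2 ^ δ := by positivity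
        linarith [norm_nonneg G]

end

section

variable {κ : Type*} [Fintype κ] {A : Type*} [NormedCommRing A] [NormedAlgebra ℝ A]

/-- STEP 2: the product of functions of separate variables -/
theorem prod_data {b : ℝ} {δ T : κ → ℝ} {g : κ → ℝ → A} {G : κ → A}
    (hc : ∀ k, ContinuousOn (g k) (Set.Ioi 0)) {M : κ → ℝ}
    (hM : ∀ k, ∀ x : ℝ, 0 < x → ‖g k x‖ ≤ M k * maj b (δ k) (T k) x)
    (hlim : ∀ k, Tendsto (fun x : ℝ => (maj b (δ k) (T k) x)⁻¹ • g k x) atTop (𝓝 (G k))) :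
    ContinuousOn (fun x : κ → ℝ => ∏ k, g k (x k)) (pos κ) ∧
    (∀ x ∈ pos κ, ‖∏ k, g k (x k)‖ ≤ (‖(1 : A)‖ * ∏ k, M k) * majP b δ T x) ∧
    ∀ ε : ℝ, 0 < ε → ∃ R : ℝ, ∀ x ∈ pos κ, (∀ k, R < x k) →
      ‖(∏ k, g k (x k)) - majP b δ T x • ∏ k, G k‖ ≤ ε * majP b δ T x := by
  classical
  refine ⟨?_, ?_, ?_⟩
  · refine continuousOn_finsetProd _ fun k _ => ?_
    exact ContinuousOn.comp (t := Set.Ioi 0) (hc k) (continuous_apply k).continuousOn
      fun x hx => hx k (Set.mem_univ k)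
  · intro x hx
    have hx' : ∀ k, 0 < x k := fun k => hx k (Set.mem_univ k)
    have key : ∀ s : Finset κ, ‖∏ k ∈ s, g k (x k)‖ ≤ ‖(1 : A)‖ * ∏ k ∈ s, ‖g k (x k)‖ := by
      intro s
      induction s using Finset.induction_on with
      | empty => simp
      | insert k s hk ih =>
        rw [Finset.prod_insert hk, Finset.prod_insert hk]
        calc ‖g k (x k) * ∏ k ∈ s, g k (x k)‖ ≤ ‖g k (x k)‖ * ‖∏ k ∈ s, g k (x k)‖ :=
              norm_mul_le _ _
          _ ≤ ‖g k (x k)‖ * (‖(1 : A)‖ * ∏ k ∈ s, ‖g k (x k)‖) :=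
              mul_le_mul_of_nonneg_left ih (norm_nonneg _)
          _ = _ := by ring
    refine (key Finset.univ).trans ?_
    rw [mul_assoc]
    refine mul_le_mul_of_nonneg_left ?_ (norm_nonneg _)
    unfold majP
    rw [← Finset.prod_mul_distrib]
    exact Finset.prod_le_prod (fun k _ => norm_nonneg _) fun k _ => hM k (x k) (hx' k)
  · intro ε hε
    have h1 : Tendsto (fun x : κ → ℝ => ∏ k, (maj b (δ k) (T k) (x k))⁻¹ • g k (x k))
        (Filter.pi fun _ => atTop) (𝓝 (∏ k, G k)) :=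
      tendsto_finsetProd _ fun k _ => (hlim k).comp (tendsto_eval_pi _ k)
    have h2 := Metric.tendsto_nhds.1 h1 ε hε
    rw [Filter.eventually_iff_exists_mem] at h2
    obtain ⟨U, hU, hU2⟩ := h2
    obtain ⟨I, hI, V, hV, hVU⟩ := Filter.mem_pi.1 hU
    have h3 : ∀ k, ∃ R : ℝ, ∀ y, R ≤ y → y ∈ V k := fun k => mem_atTop_sets.1 (hV k)
    choose R hR using h3
    refine ⟨∑ k, |R k|, fun x hx hRx => ?_⟩
    have hx' : ∀ k, 0 < x k := fun k => hx k (Set.mem_univ k)
    have h4 : x ∈ U := by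
      refine hVU fun k _ => hR k _ ?_
      have h5 : |R k| ≤ ∑ k, |R k| :=
        Finset.single_le_sum (f := fun k => |R k|) (fun k _ => abs_nonneg _) (Finset.mem_univ k)
      linarith [le_abs_self (R k), hRx k]
    have h6 := (hU2 x h4).le
    rw [dist_eq_norm, Finset.prod_smul] at h6
    have hP : 0 < majP b δ T x := majP_pos hx'
    have h7 : ∏ k, (maj b (δ k) (T k) (x k))⁻¹ = (majP b δ T x)⁻¹ := by
      unfold majP
      rw [Finset.prod_inv_distrib]
    rw [h7] at h6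
    have h8 : (∏ k, g k (x k)) - majP b δ T x • ∏ k, G k =
        majP b δ T x • ((majP b δ T x)⁻¹ • (∏ k, g k (x k)) - ∏ k, G k) := by
      rw [smul_sub, smul_smul, mul_inv_cancel₀ hP.ne', one_smul]
    rw [h8, norm_smul, Real.norm_of_nonneg hP.le, mul_comm ε]
    exact mul_le_mul_of_nonneg_left h6 hP.le

end

end Pool.Agent.H75.GC
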